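import Pool.Agent.H70.KC.SFUN

open Set Metric Filter Topology
open scoped ContDiff

noncomputable section

namespace Pool.Agent.H70.KC

open Pool.Agent.H93.KC

theorem gfun (hSFUN : T_SFUN) (hLAM : T_LAM) (hCHAIN : T_CHAIN) (hLOGH : T_LOGH) (hLIN : T_LIN) :
    T_GFUN := by
  intro R φ ψ hR hS
  obtain ⟨g, κ₀, hκ₀, hg, hgherm, hgin, hgout⟩ := hSFUN R φ ψ hR hS
  obtain ⟨lin1, lin2, lin3, -, -, -⟩ := hLIN
  have hφc : Continuous φ := hS.smooth.continuous
  have hψc : Continuous ψ := hS.smooth'.continuous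
  set r : ℝ := R + 1 / 2 with hr
  set u : E → ℝ := fun y => Real.log ‖y.1‖ with hu
  set s : E → ℝ := fun y => g y - u y with hs
  have hne : ∀ y, ‖ψ y‖ ≤ r → y.1 ≠ 0 := by
    intro y hy
    have := hS.ne (ψ y) (by rw [mem_closedBall_zero_iff]; linarith)
    rwa [hS.right] at this
  have huc : ∀ y : E, y.1 ≠ 0 → ContDiffAt ℝ ∞ u y := fun y hy =>
    (hLOGH (fun y => y.1) y analyticAt_fst hy).1
  have huh : ∀ y : E, y.1 ≠ 0 → herm u y = 0 := fun y hy =>
    (hLOGH (fun y => y.1) y analyticAt_fst hy).2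
  have hsc : ∀ y : E, y.1 ≠ 0 → ContDiffAt ℝ ∞ s y := fun y hy =>
    hg.contDiffAt.sub (huc y hy)
  have hW : IsOpen {y : E | ‖ψ y‖ < r} := isOpen_lt hψc.norm continuous_const
  have hWc : IsCompact {y : E | ‖ψ y‖ ≤ r} := by
    have : {y : E | ‖ψ y‖ ≤ r} = φ '' closedBall 0 r := by
      ext y; constructor
      · intro hy; exact ⟨ψ y, by simpa using hy, hS.right y⟩
      · rintro ⟨x, hx, rfl⟩; simpa [hS.left] using hx
    rw [this]; exact (isCompact_closedBall _ _).image hφc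
  have hscont : ContinuousOn s {y : E | ‖ψ y‖ ≤ r} := fun y hy =>
    (hsc y (hne y hy)).continuousAt.continuousWithinAt
  -- the sphere
  have hsph : IsCompact {y : E | ‖ψ y‖ = r} :=
    hWc.of_isClosed_subset (isClosed_eq hψc.norm continuous_const) fun y hy => le_of_eq hy
  have hsphn : {y : E | ‖ψ y‖ = r}.Nonempty := by
    refine ⟨φ ((r : ℂ), 0), ?_⟩
    show ‖ψ (φ ((r : ℂ), 0))‖ = r
    rw [hS.left, Prod.norm_def]
    have hr0 : 0 ≤ r := by rw [hr]; linarith
    simp [abs_of_nonneg hr0, hr0]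
  obtain ⟨y₀, hy₀, hmin⟩ := hsph.exists_isMinOn hsphn
    (hscont.mono fun y hy => le_of_eq hy)
  have hspos : ∀ y, ‖ψ y‖ = r → 0 < s y := by
    intro y hy
    have := hgout (ψ y) hy
    rw [hS.right] at this
    simp only [hs, hu]; linarith
  set t₁ : ℝ := s y₀ / 2 with ht₁
  have ht₁pos : 0 < t₁ := by have := hspos y₀ hy₀; rw [ht₁]; linarith
  have hs2 : ∀ y, ‖ψ y‖ = r → t₁ < s y := by
    intro y hy
    have h1 : s y₀ ≤ s y := hmin hy
    have h2 := hspos y₀ hy₀
    rw [ht₁]; linarith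
  obtain ⟨l, c, hl, hl0, hl1, hl', hl'', hlθ⟩ := hLAM t₁ ht₁pos
  obtain ⟨θ, hθ, hθ1, hθl⟩ := hlθ (t₁ / 2) (by linarith)
  classical
  set G : E → ℝ := fun y => if ‖ψ y‖ < r then u y + l (s y) else g y - c with hG
  have locA : ∀ y, ‖ψ y‖ < r → G =ᶠ[𝓝 y] fun y => 1 * u y + 1 * (l ∘ s) y := by
    intro y hy
    filter_upwards [hW.mem_nhds hy] with y' hy'
    have : ‖ψ y'‖ < r := hy'
    simp only [hG, this, if_true, one_mul, Function.comp]
  have locB : ∀ y, ¬ ‖ψ y‖ < r → G =ᶠ[𝓝 y] fun y => 1 * g y + 1 * (fun _ : E => -c) y := by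
    intro y hy
    have hev : ∀ᶠ y' in 𝓝 y, ‖ψ y'‖ < r → t₁ < s y' := by
      rcases lt_or_eq_of_le (not_lt.mp hy) with h | h
      · filter_upwards [(isOpen_lt continuous_const hψc.norm).mem_nhds h] with y' hy' h2
        have h3 : r < ‖ψ y'‖ := hy'
        linarith
      · have h1 : ContinuousAt s y := (hsc y (hne y h.symm.le)).continuousAt
        filter_upwards [h1.eventually (lt_mem_nhds (hs2 y h.symm))] with y' hy' _
        exact hy'
    filter_upwards [hev] with y' hy'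
    simp only [hG, one_mul]
    split_ifs with h
    · have h1 := hl1 (s y') (hy' h).le
      rw [h1]; simp only [hs]; ring
    · ring
  have hls : ∀ y : E, y.1 ≠ 0 → ContDiffAt ℝ ∞ (l ∘ s) y := fun y hy =>
    hl.contDiffAt.comp y (hsc y hy)
  have hGs : ContDiff ℝ ∞ G := by
    rw [contDiff_iff_contDiffAt]
    intro y
    by_cases hy : ‖ψ y‖ < r
    · refine ContDiffAt.congr_of_eventuallyEq ?_ (locA y hy)
      exact (contDiffAt_const.mul (huc y (hne y hy.le))).add
        (contDiffAt_const.mul (hls y (hne y hy.le)))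
    · refine ContDiffAt.congr_of_eventuallyEq ?_ (locB y hy)
      exact (contDiffAt_const.mul hg.contDiffAt).add
        (contDiffAt_const.mul contDiffAt_const)
  have hermB : ∀ y, ¬ ‖ψ y‖ < r → herm G y = herm g y := by
    intro y hy
    rw [lin1 _ _ _ (locB y hy), lin2 g (fun _ : E => -c) 1 1 y
      (hg.contDiffAt.of_le two_le_inf) contDiffAt_const, lin3]
    refine ContinuousLinearMap.ext fun v => ContinuousLinearMap.ext fun w => ?_
    show 1 * herm g y v w + 1 * (0 : ℝ) = herm g y v w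
    ring
  have hermS : ∀ y : E, y.1 ≠ 0 → herm s y = herm g y := by
    intro y hy
    have h1 : s =ᶠ[𝓝 y] fun y => 1 * g y + (-1) * u y := by
      filter_upwards with y'
      simp only [hs]; ring
    rw [lin1 _ _ _ h1, lin2 g u 1 (-1) y (hg.contDiffAt.of_le two_le_inf)
      ((huc y hy).of_le two_le_inf), huh y hy]
    refine ContinuousLinearMap.ext fun v => ContinuousLinearMap.ext fun w => ?_
    show 1 * herm g y v w + (-1) * (0 : ℝ) = herm g y v w
    ring
  have hermA : ∀ y, ‖ψ y‖ < r → ∀ v, deriv l (s y) * (κ₀ * ‖v‖ ^ 2) ≤ herm G y v v := by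
    intro y hy v
    have hy1 := hne y hy.le
    have h1 : herm G y = herm (l ∘ s) y := by
      rw [lin1 _ _ _ (locA y hy), lin2 u (l ∘ s) 1 1 y ((huc y hy1).of_le two_le_inf)
        ((hls y hy1).of_le two_le_inf), huh y hy1]
      refine ContinuousLinearMap.ext fun v => ContinuousLinearMap.ext fun w => ?_
      show 1 * (0 : ℝ) + 1 * herm (l ∘ s) y v w = herm (l ∘ s) y v w
      ring
    rw [h1, hCHAIN l s y (hl.contDiffAt.of_le two_le_inf) ((hsc y hy1).of_le two_le_inf) v,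
      hermS y hy1]
    have h2 := hgherm y v
    have h3 := hl' (s y)
    have h4 := hl'' (s y)
    have h5 : 0 ≤ deriv (deriv l) (s y) *
        ((fderiv ℝ s y v) ^ 2 + (fderiv ℝ s y (Complex.I • v)) ^ 2) := by positivity
    have h6 : deriv l (s y) * (κ₀ * ‖v‖ ^ 2) ≤ deriv l (s y) * herm g y v v := by gcongr
    linarith
  refine ⟨G, {y | ‖ψ y‖ ≤ r ∧ s y ≤ t₁ / 2}, {y | ‖ψ y‖ < r ∧ s y < 0}, θ * κ₀, by positivity,
    hGs, ?_, ?_, ?_, ?_, ?_, ?_, ?_, ?_⟩
  · have h1 : IsClosed ({y : E | ‖ψ y‖ ≤ r} ∩ s ⁻¹' Iic (t₁ / 2)) :=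
      hscont.preimage_isClosed_of_isClosed hWc.isClosed isClosed_Iic
    exact hWc.of_isClosed_subset h1 fun y hy => hy.1
  · exact (hscont.mono fun y (hy : ‖ψ y‖ < r) => hy.le).isOpen_inter_preimage hW isOpen_Iio
  · rintro y ⟨hy1, hy2⟩
    have h3 : ‖ψ y‖ < r := by
      rcases lt_or_eq_of_le hy1 with h | h
      · exact h
      · have := hs2 y h; linarith
    exact ⟨ψ y, by rw [mem_ball_zero_iff]; exact h3, hS.right y⟩
  · rintro _ ⟨x, hx, rfl⟩
    have hx' : ‖x‖ ≤ R := by simpa using hx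
    refine ⟨?_, ?_⟩
    · rw [hS.left]; linarith
    · have := hgin x hx'
      simp only [hs, hu]; linarith
  · rintro y ⟨hy1, hy2⟩
    exact ⟨hy1.le, by linarith⟩
  · rintro y ⟨hy1, hy2⟩
    simp only [hG, hy1, if_true, hl0 (s y) hy2.le, add_zero, hu]
  · intro y v
    by_cases hy : ‖ψ y‖ < r
    · have h1 := hermA y hy v
      have h2 : 0 ≤ deriv l (s y) * (κ₀ * ‖v‖ ^ 2) := mul_nonneg (hl' _) (by positivity)
      linarith
    · rw [hermB y hy]
      have h1 := hgherm y v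
      have h2 : 0 ≤ κ₀ * ‖v‖ ^ 2 := by positivity
      linarith
  · intro y hyK v
    by_cases hy : ‖ψ y‖ < r
    · have h1 := hermA y hy v
      have h3 : t₁ / 2 < s y := by
        by_contra hcon
        exact hyK ⟨hy.le, not_lt.mp hcon⟩
      have h2 := hθl (s y) h3.le
      have h4 : θ * (κ₀ * ‖v‖ ^ 2) ≤ deriv l (s y) * (κ₀ * ‖v‖ ^ 2) := by gcongr
      linarith
    · rw [hermB y hy]
      have h1 := hgherm y v
      have h2 : 0 ≤ κ₀ * ‖v‖ ^ 2 := by positivity
      nlinarith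

end Pool.Agent.H70.KC
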