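import Pool.Agent.H70.KC.SFUN

open Set Metric Filter Topology
open scoped ContDiff

noncomputable section

namespace Pool.Agent.H70.KC

open Pool.Agent.H93.KC

theorem exists_cutoff (ρ : ℝ) (hρ : 0 < ρ) : ∃ χ : E → ℝ, ContDiff ℝ ∞ χ ∧
    (∀ y : E, ‖y‖ < ρ → χ =ᶠ[𝓝 y] fun _ => 1) ∧ ∀ y : E, ρ + 1 ≤ ‖y‖ → χ y = 0 := by
  let χ : ContDiffBump (0 : E) := ⟨ρ, ρ + 1, hρ, by linarith⟩
  refine ⟨fun y => χ y, χ.contDiff, ?_, ?_⟩
  · intro y hy
    exact χ.eventuallyEq_one_of_mem_ball (by rw [mem_ball_zero_iff]; exact hy)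
  · intro y hy
    exact χ.zero_of_le_dist (by rw [dist_zero_right]; exact hy)

theorem herm_bound (lin1 : ∀ (u w : E → ℝ) (x : E), u =ᶠ[𝓝 x] w → herm u x = herm w x)
    (lin3 : ∀ (c : ℝ) (x : E), herm (fun _ => c) x = 0)
    (lin6 : ∀ u : E → ℝ, ContDiff ℝ ∞ u → ContDiff ℝ ∞ (herm u))
    (w : E → ℝ) (hws : ContDiff ℝ ∞ w) (r : ℝ) (hw0 : ∀ y : E, r < ‖y‖ → w y = 0) :
    ∃ B : ℝ, 0 ≤ B ∧ ∀ y v : E, -(B * ‖v‖ ^ 2) ≤ herm w y v v := by
  have h1' : Continuous fun y => ‖herm w y‖ := 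
    (continuous_norm (E := E →L[ℝ] E →L[ℝ] ℝ)).comp (lin6 w hws).continuous
  obtain ⟨B, hB⟩ := (isCompact_closedBall (0 : E) r).exists_bound_of_continuousOn h1'.continuousOn
  refine ⟨max B 0, le_max_right _ _, fun y v => ?_⟩
  by_cases hy : ‖y‖ ≤ r
  · have h2 : ‖herm w y‖ ≤ B :=
      (le_abs_self _).trans (hB y (by rwa [mem_closedBall_zero_iff]))
    have h3 := (herm w y).le_opNorm₂ v v
    have h4 : ‖herm w y‖ * ‖v‖ * ‖v‖ ≤ max B 0 * ‖v‖ ^ 2 := by
      have := mul_le_mul_of_nonneg_right (h2.trans (le_max_left B 0)) (by positivity : 0 ≤ ‖v‖ ^ 2)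
      nlinarith
    have h5 := neg_abs_le (herm w y v v)
    rw [Real.norm_eq_abs] at h3
    linarith
  · have h3 : w =ᶠ[𝓝 y] fun _ => (0 : ℝ) := by
      filter_upwards [(isOpen_lt continuous_const continuous_norm).mem_nhds (not_le.mp hy)]
        with y' hy'
      exact hw0 y' hy'
    have h4 : herm w y v v = 0 := by
      rw [lin1 _ _ _ h3, lin3]; rfl
    rw [h4]
    have : 0 ≤ max B 0 * ‖v‖ ^ 2 := mul_nonneg (le_max_right _ _) (by positivity)
    linarith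

theorem kext (hGFUN : T_GFUN) (hPULL : T_PULL) (hLIN : T_LIN) (hLOGH : T_LOGH) : T_KEXT := by
  intro R φ ψ hR hS u hu
  obtain ⟨G, K, O, κ, hκ, hG, hK, hO, hKW, hRO, hOK, hGO, hGn, hGp⟩ := hGFUN R φ ψ hR hS
  obtain ⟨lin1, lin2, lin3, -, -, lin6⟩ := hLIN
  obtain ⟨ρ, hρ, hKρ⟩ : ∃ ρ > 0, K ⊆ ball (0 : E) ρ := by
    obtain ⟨ρ, hρ⟩ := hK.isBounded.subset_ball (0 : E)
    exact ⟨max ρ 1, by positivity, hρ.trans (ball_subset_ball (le_max_left _ _))⟩
  obtain ⟨χ, hχs, hχ1', hχ0⟩ := exists_cutoff ρ hρ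
  have hv0 : ContDiff ℝ ∞ (u ∘ ψ) := hu.smooth.comp hS.smooth'
  set w : E → ℝ := fun y => χ y * (u ∘ ψ) y with hw
  have hws : ContDiff ℝ ∞ w := hχs.mul hv0
  have hχ1 : ∀ y ∈ K, χ =ᶠ[𝓝 y] fun _ => 1 := fun y hy =>
    hχ1' y (by have := hKρ hy; rwa [mem_ball_zero_iff] at this)
  -- bound
  have hw0 : ∀ y : E, ρ + 1 < ‖y‖ → w y = 0 := fun y hy => by
    simp only [hw, hχ0 y hy.le, zero_mul]
  obtain ⟨B, hB0, hBv⟩ := herm_bound lin1 lin3 lin6 w hws (ρ + 1) hw0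
  set C : ℝ := (B + 1) / κ with hC
  have hCpos : 0 < C := by positivity
  have hCκ : C * κ = B + 1 := by rw [hC]; field_simp
  set u' : E → ℝ := fun y => 1 * w y + C * G y with hu'
  have hu's : ContDiff ℝ ∞ u' := (contDiff_const.mul hws).add (contDiff_const.mul hG)
  have herm' : ∀ y v : E, herm u' y v v = herm w y v v + C * herm G y v v := by
    intro y v
    have h1 := lin2 w G 1 C y (hws.contDiffAt.of_le two_le_inf) (hG.contDiffAt.of_le two_le_inf)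
    rw [hu', h1]
    show 1 * herm w y v v + C * herm G y v v = _
    ring
  have hb : ∀ y, y ∉ K → ∀ v : E, ‖v‖ ^ 2 ≤ herm u' y v v := by
    intro y hy v
    rw [herm']
    have h1 := hBv y v
    have h2 := hGp y hy v
    have h3 : C * (κ * ‖v‖ ^ 2) ≤ C * herm G y v v := by gcongr
    have h4 : C * (κ * ‖v‖ ^ 2) = (B + 1) * ‖v‖ ^ 2 := by rw [← mul_assoc, hCκ]
    nlinarith
  have ha : ∀ y ∈ K, ∀ v : E, v ≠ 0 → 0 < herm u' y v v := by
    intro y hy v hv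
    rw [herm']
    have h1 : w =ᶠ[𝓝 y] u ∘ ψ := by
      filter_upwards [hχ1 y hy] with y' hy'
      simp only [hw, hy', one_mul]
    rw [lin1 _ _ _ h1]
    obtain ⟨x, hx, hxy⟩ := hKW hy
    have hxb : x ∈ closedBall (0 : E) (R + 1) := by
      rw [mem_closedBall_zero_iff]; rw [mem_ball_zero_iff] at hx; linarith
    have hψa : AnalyticAt ℂ ψ y := hS.hol' y ⟨x, hxb, hxy⟩
    have hψy : ψ y = x := by rw [← hxy, hS.left]
    have hφa : AnalyticAt ℂ φ (ψ y) := by rw [hψy]; exact hS.hol x hxb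
    rw [hPULL u ψ y (hu.smooth.contDiffAt.of_le two_le_inf) hψa]
    have hinj : fderiv ℂ ψ y v ≠ 0 := by
      intro h0
      have h2 : fderiv ℂ (φ ∘ ψ) y = (fderiv ℂ φ (ψ y)).comp (fderiv ℂ ψ y) :=
        fderiv_comp y hφa.differentiableAt hψa.differentiableAt
      have h3 : φ ∘ ψ = id := by funext z; exact hS.right z
      rw [h3, fderiv_id] at h2
      have h4 := congrArg (fun A : E →L[ℂ] E => A v) h2
      simp only [ContinuousLinearMap.comp_apply, h0, map_zero] at h4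
      exact hv h4
    have h5 := hu.pos (ψ y) _ hinj
    have h6 := hGn y v
    have h7 : 0 ≤ C * herm G y v v := by positivity
    linarith
  refine ⟨u', ⟨hu's, ?_⟩, ?_, ρ, 1, one_pos, ?_⟩
  · intro y v hv
    by_cases hy : y ∈ K
    · exact ha y hy v hv
    · have h1 := hb y hy v
      have h2 : 0 < ‖v‖ := norm_pos_iff.mpr hv
      nlinarith [h2]
  · intro x hx v z
    have hxb : x ∈ closedBall (0 : E) (R + 1) := by
      rw [mem_closedBall_zero_iff]; linarith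
    have hφa : AnalyticAt ℂ φ x := hS.hol x hxb
    have hxO : φ x ∈ O := hRO ⟨x, by simpa using hx, rfl⟩
    rw [← hPULL u' φ x (hu's.contDiffAt.of_le two_le_inf) hφa]
    have hφ1 : AnalyticAt ℂ (fun y => (φ y).1) x := analyticAt_fst.comp hφa
    have hL := hLOGH (fun y => (φ y).1) x hφ1 (hS.ne x hxb)
    have h1 : u' ∘ φ =ᶠ[𝓝 x] fun y => 1 * u y + C * Real.log ‖(φ y).1‖ := by
      have c1 : ∀ᶠ y in 𝓝 x, φ y ∈ O := hφa.continuousAt.eventually (hO.mem_nhds hxO)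
      have c2 : ∀ᶠ y in 𝓝 x, χ (φ y) = 1 := by
        have := hχ1 (φ x) (hOK hxO)
        exact hφa.continuousAt.eventually this
      filter_upwards [c1, c2] with y h1 h2
      simp only [Function.comp, hu', hw, h2, one_mul, hS.left, hGO _ h1]
    rw [lin1 _ _ _ h1, lin2 u (fun y => Real.log ‖(φ y).1‖) 1 C x
      (hu.smooth.contDiffAt.of_le two_le_inf) (hL.1.of_le two_le_inf), hL.2]
    show 1 * herm u x v z + C * (0 : ℝ) = _
    ring
  · intro y hy v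
    have hyK : y ∉ K := by
      intro h
      have := hKρ h
      rw [mem_ball_zero_iff] at this
      linarith
    have := hb y hyK v
    linarith

end Pool.Agent.H70.KC
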