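import Pool.Agent.H93.KC.Targets

open Set Metric Filter Topology
open scoped ContDiff

noncomputable section

namespace Pool.Agent.H70.KC

open Pool.Agent.H93.KC

/-- second derivative of the real part of an analytic function -/
theorem hess_re (l : E → ℂ) (x : E) (hl : AnalyticAt ℂ l x) (c : ℝ) (v w : E) :
    hess (fun y => c + (l y).re) x v w = (fderiv ℂ (fderiv ℂ l) x v w).re := by
  have hd : ∀ᶠ y in 𝓝 x, DifferentiableAt ℂ l y :=
    hl.eventually_analyticAt.mono fun y hy => hy.differentiableAt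
  have h1 : (fderiv ℝ (fun y => c + (l y).re)) =ᶠ[𝓝 x]
      fun y => Complex.reCLM.comp ((fderiv ℂ l y).restrictScalars ℝ) := by
    filter_upwards [hd] with y hy
    have h2 : HasFDerivAt l ((fderiv ℂ l y).restrictScalars ℝ) y :=
      hy.hasFDerivAt.restrictScalars ℝ
    have h3 : HasFDerivAt (fun y => (l y).re)
        (Complex.reCLM.comp ((fderiv ℂ l y).restrictScalars ℝ)) y :=
      Complex.reCLM.hasFDerivAt.comp y h2
    exact (h3.const_add c).fderiv
  have h4 : DifferentiableAt ℂ (fderiv ℂ l) x := hl.fderiv.differentiableAt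
  have h5 : HasFDerivAt (fderiv ℂ l) ((fderiv ℂ (fderiv ℂ l) x).restrictScalars ℝ) x :=
    h4.hasFDerivAt.restrictScalars ℝ
  unfold hess
  rw [h1.fderiv_eq]
  -- the map `A ↦ re ∘ A` is a continuous real linear map
  let Λ : (E →L[ℂ] ℂ) →L[ℝ] (E →L[ℝ] ℝ) :=
    (ContinuousLinearMap.compL ℝ E ℂ ℝ Complex.reCLM).comp
      (ContinuousLinearMap.restrictScalarsL ℂ E ℂ ℝ ℝ)
  have h6 : HasFDerivAt (fun y => Complex.reCLM.comp ((fderiv ℂ l y).restrictScalars ℝ))
      (Λ.comp ((fderiv ℂ (fderiv ℂ l) x).restrictScalars ℝ)) x :=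
    Λ.hasFDerivAt.comp x h5
  rw [h6.fderiv]
  rfl

theorem logh : T_LOGH := by
  intro h x hh hx
  set l : E → ℂ := fun y => Complex.log (h y / h x) with hldef
  have hl : AnalyticAt ℂ l x := by
    apply AnalyticAt.clog
    · exact hh.div analyticAt_const hx
    · rw [div_self hx]; exact Complex.one_mem_slitPlane
  have hev : (fun y => Real.log ‖h y‖) =ᶠ[𝓝 x] fun y => Real.log ‖h x‖ + (l y).re := by
    have h1 : ∀ᶠ y in 𝓝 x, h y ≠ 0 := hh.continuousAt.eventually_ne hx
    filter_upwards [h1] with y hy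
    rw [hldef]
    simp only [Complex.log_re]
    rw [norm_div, Real.log_div (norm_ne_zero_iff.mpr hy) (norm_ne_zero_iff.mpr hx)]
    ring
  refine ⟨?_, ?_⟩
  · have h2 : ContDiffAt ℝ ∞ (fun y => Real.log ‖h x‖ + (l y).re) x := by
      have h3 : ContDiffAt ℝ ∞ l x := (hl.contDiffAt (n := ∞)).restrict_scalars ℝ
      exact contDiffAt_const.add (Complex.reCLM.contDiff.contDiffAt.comp x h3)
    exact h2.congr_of_eventuallyEq hev
  · have h7 : herm (fun y => Real.log ‖h y‖) x = herm (fun y => Real.log ‖h x‖ + (l y).re) x := by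
      unfold herm hess
      rw [(hev.fderiv (𝕜 := ℝ)).fderiv_eq]
    rw [h7]
    apply ContinuousLinearMap.ext
    intro v
    apply ContinuousLinearMap.ext
    intro w
    have e1 : herm (fun y => Real.log ‖h x‖ + (l y).re) x v w =
        hess (fun y => Real.log ‖h x‖ + (l y).re) x v w +
        hess (fun y => Real.log ‖h x‖ + (l y).re) x (Complex.I • v) (Complex.I • w) := rfl
    rw [e1, hess_re l x hl, hess_re l x hl]
    simp only [map_smul, ContinuousLinearMap.smul_apply, smul_smul, Complex.I_mul_I]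
    simp

end Pool.Agent.H70.KC
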