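import Pool.Agent.H93.KC.Targets

open Set Metric Filter Topology
open scoped ContDiff

noncomputable section

namespace Pool.Agent.H70.KC

open Pool.Agent.H93.KC

theorem two_le_inf : (2 : WithTop ℕ∞) ≤ ∞ := by
  exact WithTop.coe_le_coe.mpr (le_top : (2 : ℕ∞) ≤ ⊤)

/-- choice of the exponent -/
theorem exists_exp (R : ℝ) (hR : 0 < R) : ∃ m : ℕ, 1 ≤ m ∧
    2 * ((R + 1 / 16) / (R + 1 / 4)) ^ (2 * m) ≤ 1 / 4 ∧
    4 ≤ ((R + 7 / 16) / (R + 1 / 4)) ^ (2 * m) := by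
  have h1 : (R + 1 / 16) / (R + 1 / 4) < 1 := by rw [div_lt_one (by linarith)]; linarith
  have h0 : 0 ≤ (R + 1 / 16) / (R + 1 / 4) := by positivity
  have h2 : 1 < (R + 7 / 16) / (R + 1 / 4) := by rw [one_lt_div (by linarith)]; linarith
  have e1 : ∀ᶠ n : ℕ in atTop, ((R + 1 / 16) / (R + 1 / 4)) ^ n < 1 / 8 :=
    (tendsto_pow_atTop_nhds_zero_of_lt_one h0 h1).eventually (gt_mem_nhds (by norm_num))
  have e2 : ∀ᶠ n : ℕ in atTop, 4 ≤ ((R + 7 / 16) / (R + 1 / 4)) ^ n :=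
    (tendsto_pow_atTop_atTop_of_one_lt h2).eventually_ge_atTop 4
  obtain ⟨n, hn⟩ := ((e1.and e2).and (eventually_ge_atTop 1)).exists_forall_of_atTop
  refine ⟨n, (hn n le_rfl).2, ?_, ?_⟩
  · have := ((hn (2 * n) (by omega)).1).1
    linarith
  · exact ((hn (2 * n) (by omega)).1).2

theorem contDiff_of_entire (f : E → ℂ) (hf : AnalyticOnNhd ℂ f univ) : ContDiff ℝ ∞ f := by
  have h : ContDiff ℂ ∞ f := contDiff_iff_contDiffAt.mpr fun x => (hf x trivial).contDiffAt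
  exact h.restrict_scalars ℝ

theorem norm_sq_le (v : E) : ‖v‖ ^ 2 ≤ ‖v.1‖ ^ 2 + ‖v.2‖ ^ 2 := by
  rw [Prod.norm_def]
  rcases le_total ‖v.1‖ ‖v.2‖ with h | h
  · rw [max_eq_right h]; nlinarith [norm_nonneg v.1]
  · rw [max_eq_left h]; nlinarith [norm_nonneg v.2]

/-- the quotient identity -/
theorem quot_eq (p z : ℂ) (c : ℝ) (hc : 0 < c) (hz : z ≠ 0) (m N : ℕ) :
    ‖(p / c) ^ m‖ ^ 2 / ‖z‖ ^ (2 * m * N) = (‖p / z ^ N‖ / c) ^ (2 * m) := by
  have hz' : (0 : ℝ) < ‖z‖ := norm_pos_iff.mpr hz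
  rw [norm_pow, norm_div, norm_div, norm_pow, Complex.norm_real, Real.norm_of_nonneg hc.le,
    ← pow_mul, div_pow, div_pow, div_pow, ← pow_mul]
  rw [show m * 2 = 2 * m by ring, show N * (2 * m) = 2 * m * N by ring]
  field_simp

theorem sfun (hLOGS : T_LOGS) (hSQ : T_SQ) (hLIN : T_LIN) : T_SFUN := by
  intro R φ ψ hR hS
  obtain ⟨P₀, Q₀, N₀, hP₀, hQ₀, happ⟩ := hS.approx (1 / 16) (by norm_num)
  set N : ℕ := N₀ + 1 with hN
  set P : E → ℂ := fun y => P₀ y * y.1 with hPdef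
  set Q : E → ℂ := fun y => Q₀ y * y.1 with hQdef
  have hfst : AnalyticOnNhd ℂ (fun y : E => y.1) univ := fun y _ => analyticAt_fst
  have hP : AnalyticOnNhd ℂ P univ := hP₀.mul hfst
  have hQ : AnalyticOnNhd ℂ Q univ := hQ₀.mul hfst
  have hPQ : ∀ x ∈ closedBall (0 : E) (R + 1),
      ‖x.1 - P (φ x) / (φ x).1 ^ N‖ < 1 / 16 ∧ ‖x.2 - Q (φ x) / (φ x).1 ^ N‖ < 1 / 16 := by
    intro x hx
    have hne := hS.ne x hx
    have e1 : P (φ x) / (φ x).1 ^ N = P₀ (φ x) / (φ x).1 ^ N₀ := by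
      simp only [hPdef, hN, pow_succ]; field_simp
    have e2 : Q (φ x) / (φ x).1 ^ N = Q₀ (φ x) / (φ x).1 ^ N₀ := by
      simp only [hQdef, hN, pow_succ]; field_simp
    rw [e1, e2]; exact happ x hx
  obtain ⟨m, hm1, hmq, hmQ⟩ := exists_exp R hR
  set c : ℝ := R + 1 / 4 with hc
  have hcpos : 0 < c := by rw [hc]; linarith
  set f : E → ℂ := fun y => (P y / c) ^ m with hf
  set h : E → ℂ := fun y => (Q y / c) ^ m with hh
  have hfa : AnalyticOnNhd ℂ f univ := by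
    have : AnalyticOnNhd ℂ (fun y => P y / (c : ℂ)) univ := by
      intro y hy
      exact (hP y hy).div analyticAt_const (by exact_mod_cast hcpos.ne')
    exact this.pow m
  have hha : AnalyticOnNhd ℂ h univ := by
    have : AnalyticOnNhd ℂ (fun y => Q y / (c : ℂ)) univ := by
      intro y hy
      exact (hQ y hy).div analyticAt_const (by exact_mod_cast hcpos.ne')
    exact this.pow m
  -- compactness
  have hφc : Continuous φ := hS.smooth.continuous
  have hcomp : IsCompact (closedBall (0 : E) R) := isCompact_closedBall _ _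
  have hnon : (closedBall (0 : E) R).Nonempty := ⟨0, by simp [hR.le]⟩
  obtain ⟨x₀, hx₀, hmin⟩ := hcomp.exists_isMinOn hnon
    (f := fun x => ‖(φ x).1‖) (by fun_prop)
  set b : ℝ := ‖(φ x₀).1‖ with hb
  have hsub : closedBall (0 : E) R ⊆ closedBall 0 (R + 1) := closedBall_subset_closedBall (by linarith)
  have hbpos : 0 < b := norm_pos_iff.mpr (hS.ne x₀ (hsub hx₀))
  obtain ⟨x₁, hx₁, hmax⟩ := hcomp.exists_isMaxOn hnon
    (f := fun x => ‖(φ x).1‖ ^ 2 + ‖(φ x).2‖ ^ 2) (by fun_prop)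
  set C : ℝ := ‖(φ x₁).1‖ ^ 2 + ‖(φ x₁).2‖ ^ 2 with hC
  have hC0 : 0 ≤ C := by positivity
  set M : ℕ := 2 * m * N with hM
  have hMpos : (0 : ℝ) < M := by
    have : 0 < M := by rw [hM, hN]; positivity
    exact_mod_cast this
  set δ : ℝ := b ^ M / 4 with hδ
  have hδpos : 0 < δ := by positivity
  have hlog2 : 0 < Real.log 2 := Real.log_pos (by norm_num)
  set δ' : ℝ := Real.log 2 / (2 * M * (C + 1)) with hδ'
  have hδ'pos : 0 < δ' := by positivity
  set F : E → ℝ := fun y => ‖f y‖ ^ 2 + ‖h y‖ ^ 2 + δ with hF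
  have hFpos : ∀ y, 0 < F y := fun y => by positivity
  set L : E → ℝ := fun y => Real.log (F y) with hL
  set S : E → ℝ := fun y => ‖y.1‖ ^ 2 + ‖y.2‖ ^ 2 with hSdef
  have hLs : ContDiff ℝ ∞ L := by
    have h1 : ContDiff ℝ ∞ F :=
      (((contDiff_of_entire f hfa).norm_sq ℝ).add ((contDiff_of_entire h hha).norm_sq ℝ)).add
        contDiff_const
    exact h1.log fun y => (hFpos y).ne'
  set g : E → ℝ := fun y => (1 / (M : ℝ)) * L y + δ' * S y with hg
  have hgs : ContDiff ℝ ∞ g := (contDiff_const.mul hLs).add (contDiff_const.mul hSQ.1)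
  have hherm : ∀ x v : E, 4 * δ' * ‖v‖ ^ 2 ≤ herm g x v v := by
    intro x v
    have h1 := hLIN.2.1 L S (1 / (M : ℝ)) δ' x ((hLs.of_le two_le_inf).contDiffAt)
      ((hSQ.1.of_le two_le_inf).contDiffAt)
    have h2 : herm g x v v = (1 / (M : ℝ)) * herm L x v v + δ' * herm S x v v := by
      rw [hg, h1]; rfl
    rw [h2, hSQ.2 x v]
    have h3 : 0 ≤ herm L x v v := hLOGS f h δ x hδpos (hfa x trivial) (hha x trivial) v
    have h4 : 0 ≤ (1 / (M : ℝ)) * herm L x v v := by positivity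
    have h5 := norm_sq_le v
    nlinarith
  -- the key identity
  have hkey : ∀ y : E, y.1 ≠ 0 →
      g y - Real.log ‖y.1‖ = (1 / (M : ℝ)) * Real.log (F y / ‖y.1‖ ^ M) + δ' * S y := by
    intro y hy
    have hy' : 0 < ‖y.1‖ := norm_pos_iff.mpr hy
    rw [Real.log_div (hFpos y).ne' (by positivity), Real.log_pow]
    simp only [hg, hL]
    field_simp
    ring
  have hFq : ∀ y : E, y.1 ≠ 0 → F y / ‖y.1‖ ^ M =
      (‖P y / y.1 ^ N‖ / c) ^ (2 * m) + (‖Q y / y.1 ^ N‖ / c) ^ (2 * m) + δ / ‖y.1‖ ^ M := by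
    intro y hy
    rw [← quot_eq (P y) y.1 c hcpos hy m N, ← quot_eq (Q y) y.1 c hcpos hy m N, ← hM]
    simp only [hF, hf, hh]
    ring
  refine ⟨g, 4 * δ', by positivity, hgs, hherm, ?_, ?_⟩
  · intro x hx
    have hxb : x ∈ closedBall (0 : E) R := by simpa using hx
    have hne := hS.ne x (hsub hxb)
    have hz : 0 < ‖(φ x).1‖ := norm_pos_iff.mpr hne
    obtain ⟨a1, a2⟩ := hPQ x (hsub hxb)
    have hx1 : ‖x.1‖ ≤ R := (norm_fst_le x).trans hx
    have hx2 : ‖x.2‖ ≤ R := (norm_snd_le x).trans hx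
    have b1 : ‖P (φ x) / (φ x).1 ^ N‖ ≤ R + 1 / 16 := by
      have := norm_sub_norm_le (P (φ x) / (φ x).1 ^ N) x.1
      rw [norm_sub_rev] at this
      linarith
    have b2 : ‖Q (φ x) / (φ x).1 ^ N‖ ≤ R + 1 / 16 := by
      have := norm_sub_norm_le (Q (φ x) / (φ x).1 ^ N) x.2
      rw [norm_sub_rev] at this
      linarith
    have c1 : (‖P (φ x) / (φ x).1 ^ N‖ / c) ^ (2 * m) ≤ ((R + 1 / 16) / (R + 1 / 4)) ^ (2 * m) := by
      gcongr
    have c2 : (‖Q (φ x) / (φ x).1 ^ N‖ / c) ^ (2 * m) ≤ ((R + 1 / 16) / (R + 1 / 4)) ^ (2 * m) := by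
      gcongr
    have c3 : δ / ‖(φ x).1‖ ^ M ≤ 1 / 4 := by
      have hbz : b ≤ ‖(φ x).1‖ := hmin hxb
      rw [div_le_iff₀ (by positivity), hδ]
      have : b ^ M ≤ ‖(φ x).1‖ ^ M := by gcongr
      linarith
    have hle : F (φ x) / ‖(φ x).1‖ ^ M ≤ 1 / 2 := by
      rw [hFq _ hne]; linarith
    have hpos : 0 < F (φ x) / ‖(φ x).1‖ ^ M := div_pos (hFpos _) (by positivity)
    have hlog : Real.log (F (φ x) / ‖(φ x).1‖ ^ M) ≤ - Real.log 2 := by
      rw [← Real.log_inv]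
      apply Real.log_le_log hpos
      linarith
    have hS' : S (φ x) ≤ C := hmax hxb
    have hk := hkey (φ x) hne
    have e1 : (1 / (M : ℝ)) * Real.log (F (φ x) / ‖(φ x).1‖ ^ M) ≤ (1 / (M : ℝ)) * (- Real.log 2) := by
      gcongr
    have e2 : δ' * S (φ x) ≤ δ' * C := by gcongr
    have e3 : δ' * C < (1 / (M : ℝ)) * Real.log 2 := by
      have : δ' * C = (1 / (M : ℝ)) * Real.log 2 * (C / (2 * (C + 1))) := by
        rw [hδ']; field_simp
      rw [this]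
      have h6 : C / (2 * (C + 1)) < 1 := by rw [div_lt_one (by positivity)]; linarith
      have h7 : 0 < (1 / (M : ℝ)) * Real.log 2 := by positivity
      nlinarith
    linarith
  · intro x hx
    have hxb : x ∈ closedBall (0 : E) (R + 1) := by
      rw [mem_closedBall_zero_iff, hx]; linarith
    have hne := hS.ne x hxb
    have hz : 0 < ‖(φ x).1‖ := norm_pos_iff.mpr hne
    obtain ⟨a1, a2⟩ := hPQ x hxb
    have hge : 4 ≤ F (φ x) / ‖(φ x).1‖ ^ M := by
      rw [hFq _ hne]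
      have d0 : 0 ≤ δ / ‖(φ x).1‖ ^ M := by positivity
      have d1 : 0 ≤ (‖P (φ x) / (φ x).1 ^ N‖ / c) ^ (2 * m) := by positivity
      have d2 : 0 ≤ (‖Q (φ x) / (φ x).1 ^ N‖ / c) ^ (2 * m) := by positivity
      rcases max_choice ‖x.1‖ ‖x.2‖ with hmx | hmx
      · have hx1 : ‖x.1‖ = R + 1 / 2 := by rw [← hx, Prod.norm_def, hmx]
        have b1 : R + 7 / 16 ≤ ‖P (φ x) / (φ x).1 ^ N‖ := by
          have := norm_sub_norm_le x.1 (P (φ x) / (φ x).1 ^ N)
          linarith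
        have c1 : ((R + 7 / 16) / (R + 1 / 4)) ^ (2 * m) ≤
            (‖P (φ x) / (φ x).1 ^ N‖ / c) ^ (2 * m) := by gcongr
        linarith
      · have hx1 : ‖x.2‖ = R + 1 / 2 := by rw [← hx, Prod.norm_def, hmx]
        have b1 : R + 7 / 16 ≤ ‖Q (φ x) / (φ x).1 ^ N‖ := by
          have := norm_sub_norm_le x.2 (Q (φ x) / (φ x).1 ^ N)
          linarith
        have c1 : ((R + 7 / 16) / (R + 1 / 4)) ^ (2 * m) ≤
            (‖Q (φ x) / (φ x).1 ^ N‖ / c) ^ (2 * m) := by gcongr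
        linarith
    have hk := hkey (φ x) hne
    have hlog : 0 < Real.log (F (φ x) / ‖(φ x).1‖ ^ M) := Real.log_pos (by linarith)
    have e1 : 0 < (1 / (M : ℝ)) * Real.log (F (φ x) / ‖(φ x).1‖ ^ M) := by positivity
    have e2 : 0 ≤ δ' * S (φ x) := by positivity
    linarith

end Pool.Agent.H70.KC
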