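import Pool.Agent.H93.KC.Targets

open Set Metric Filter Topology
open scoped ContDiff

noncomputable section

namespace Pool.Agent.H70.KC

open Pool.Agent.H93.KC

def sqL : E →L[ℝ] E →L[ℝ] ℝ :=
  (2 : ℝ) • (innerSL ℝ : ℂ →L[ℝ] ℂ →L[ℝ] ℝ).bilinearComp (ContinuousLinearMap.fst ℝ ℂ ℂ)
    (ContinuousLinearMap.fst ℝ ℂ ℂ) +
  (2 : ℝ) • (innerSL ℝ : ℂ →L[ℝ] ℂ →L[ℝ] ℝ).bilinearComp (ContinuousLinearMap.snd ℝ ℂ ℂ)
    (ContinuousLinearMap.snd ℝ ℂ ℂ)

theorem fderiv_sq (y : E) : fderiv ℝ (fun y : E => ‖y.1‖ ^ 2 + ‖y.2‖ ^ 2) y = sqL y := by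
  have h1 : HasFDerivAt (fun y : E => ‖y.1‖ ^ 2)
      (2 • (innerSL ℝ y.1).comp (ContinuousLinearMap.fst ℝ ℂ ℂ)) y :=
    (hasFDerivAt_fst (𝕜 := ℝ) (p := y)).norm_sq
  have h2 : HasFDerivAt (fun y : E => ‖y.2‖ ^ 2)
      (2 • (innerSL ℝ y.2).comp (ContinuousLinearMap.snd ℝ ℂ ℂ)) y :=
    (hasFDerivAt_snd (𝕜 := ℝ) (p := y)).norm_sq
  have h3 : fderiv ℝ (fun y : E => ‖y.1‖ ^ 2 + ‖y.2‖ ^ 2) y = _ := (h1.add h2).fderiv
  rw [h3]
  ext w <;> simp [sqL] <;> ring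

theorem sq : T_SQ := by
  refine ⟨?_, ?_⟩
  · exact (contDiff_fst.norm_sq ℝ).add (contDiff_snd.norm_sq ℝ)
  · intro x v
    have h : fderiv ℝ (fun y : E => ‖y.1‖ ^ 2 + ‖y.2‖ ^ 2) = fun y => sqL y := by
      funext y; exact fderiv_sq y
    have h2 : hess (fun y : E => ‖y.1‖ ^ 2 + ‖y.2‖ ^ 2) x = sqL := by
      unfold hess
      rw [h]
      exact sqL.fderiv
    have e1 : herm (fun y : E => ‖y.1‖ ^ 2 + ‖y.2‖ ^ 2) x v v =
        hess (fun y : E => ‖y.1‖ ^ 2 + ‖y.2‖ ^ 2) x v v +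
        hess (fun y : E => ‖y.1‖ ^ 2 + ‖y.2‖ ^ 2) x (Complex.I • v) (Complex.I • v) := rfl
    rw [e1, h2]
    have e2 : ∀ w : E, sqL w w = 2 * (‖w.1‖ ^ 2 + ‖w.2‖ ^ 2) := by
      intro w
      have : sqL w w = 2 * inner ℝ w.1 w.1 + 2 * inner ℝ w.2 w.2 := rfl
      rw [this, real_inner_self_eq_norm_sq, real_inner_self_eq_norm_sq]; ring
    rw [e2, e2]
    simp only [Prod.smul_fst, Prod.smul_snd, norm_smul, Complex.norm_I, one_mul]
    ring

/-- LAM -/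
theorem lam : T_LAM := by
  intro t₁ ht₁
  set θ : ℝ → ℝ := fun t => Real.smoothTransition (t / t₁) with hθ
  have hθc : ContDiff ℝ ∞ θ := Real.smoothTransition.contDiff.comp (contDiff_id.div_const t₁)
  have hcont : Continuous θ := hθc.continuous
  have hθn : ∀ t, 0 ≤ θ t := fun t => Real.smoothTransition.nonneg _
  have hθ1 : ∀ t, θ t ≤ 1 := fun t => Real.smoothTransition.le_one _
  have hθm : Monotone θ := by
    intro a b hab
    exact Real.smoothTransition.monotone (by gcongr)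
  have hderiv : ∀ t, HasDerivAt (fun t => ∫ s in (0 : ℝ)..t, θ s) (θ t) t := fun t =>
    intervalIntegral.integral_hasDerivAt_right (hcont.intervalIntegrable _ _)
      (hcont.stronglyMeasurableAtFilter _ _) hcont.continuousAt
  have hd : deriv (fun t => ∫ s in (0 : ℝ)..t, θ s) = θ := by
    funext t; exact (hderiv t).deriv
  have hl1 : ∀ t ≤ 0, θ t = 0 := fun t ht =>
    Real.smoothTransition.zero_of_nonpos (div_nonpos_of_nonpos_of_nonneg ht ht₁.le)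
  have hl2 : ∀ t, t₁ ≤ t → θ t = 1 := fun t ht =>
    Real.smoothTransition.one_of_one_le (by rw [le_div_iff₀ ht₁]; linarith)
  refine ⟨fun t => ∫ s in (0 : ℝ)..t, θ s, t₁ - ∫ s in (0 : ℝ)..t₁, θ s, ?_, ?_, ?_, ?_, ?_, ?_⟩
  · rw [contDiff_infty_iff_deriv]
    refine ⟨fun t => (hderiv t).differentiableAt, ?_⟩
    rw [hd]; exact hθc
  · intro t ht
    show (∫ s in (0 : ℝ)..t, θ s) = 0
    rw [intervalIntegral.integral_symm]
    have : ∫ s in t..0, θ s = ∫ s in t..0, (0 : ℝ) := by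
      apply intervalIntegral.integral_congr
      intro s hs
      rw [uIcc_of_le ht] at hs
      exact hl1 s hs.2
    rw [this]; simp
  · intro t ht
    show (∫ s in (0 : ℝ)..t, θ s) = t - (t₁ - ∫ s in (0 : ℝ)..t₁, θ s)
    rw [← intervalIntegral.integral_add_adjacent_intervals (hcont.intervalIntegrable 0 t₁)
      (hcont.intervalIntegrable t₁ t)]
    have : ∫ s in t₁..t, θ s = ∫ s in t₁..t, (1 : ℝ) := by
      apply intervalIntegral.integral_congr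
      intro s hs
      rw [uIcc_of_le ht] at hs
      exact hl2 s hs.1
    rw [this]; simp; ring
  · intro t; rw [hd]; exact hθn t
  · intro t; rw [hd]; exact hθm.deriv_nonneg
  · intro t₀ ht₀
    refine ⟨θ t₀, ?_, hθ1 _, ?_⟩
    · exact Real.smoothTransition.pos_of_pos (div_pos ht₀ ht₁)
    · intro t ht; rw [hd]; exact hθm ht

end Pool.Agent.H70.KC
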